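import Pool.Agent.R750.NetFinal

/-!
# MP_34cb49_gt, Q1: tripod rigidity fails for arbitrarily small positive curvature

For every `ε > 0` and every `n ≥ 1` there is a complete Riemannian plane with `∫ K⁺ dA < ε` which
carries a geodesic net with exactly three unbalanced vertices, exactly `n` balanced vertices (all of
degree four) and `2 n + 2` edges. In particular it is not a three-edge star, and for `n ≥ 2` it has
more than one balanced vertex.

The metric is `e^{2u} (dx² + dy²)` with `u = v(x) + w(y)`; on a long and very thin strip around a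
piece of the `x`-axis it is the metric of a neighbourhood of an arc of the equator of the round
sphere, outside it the curvature is non-positive. Two great circles which make a small angle meet
again and again inside the strip.
-/

set_option autoImplicit false

namespace Pool.Agent.Results.MP_34cb49_gt.ManyBalancedVertices

open Pool.Agent.R750

/-- For every `ε > 0` and every `n ≥ 1` there is a Riemannian plane `g`, complete because
`g ≥ (1/4) (dx² + dy²)`, with `∫ K⁺ dA < ε`, and a geodesic net in it with exactly three unbalanced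
vertices, exactly `n` balanced vertices, each of degree four, and exactly `2 n + 2` edges. -/
theorem result (ε : ℝ) (hε : 0 < ε) (n : ℕ) (hn : 1 ≤ n) :
    ∃ g : RPlane, (∀ p v : ℝ × ℝ, (1 / 4) * (v.1 ^ 2 + v.2 ^ 2) ≤ g.inn p v v) ∧
      g.totalPosCurv < ENNReal.ofReal ε ∧
      ∃ N : GeodesicNet g, N.U.card = 3 ∧ N.B.card = n ∧ (∀ v ∈ N.B, N.deg v = 4) ∧
        N.numEdges = 2 * n + 2 := by
  have hp := Real.pi_pos
  set T : ℝ := n * Real.pi + Real.pi / 2 with hTdef
  have hT : 0 ≤ T := by positivity
  obtain ⟨δ, hδ, hδ', hδε⟩ : ∃ δ : ℝ, 0 < δ ∧ δ ≤ 1 / 4 ∧ 8 * δ * ((2 * T + 1) + 1) < ε := by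
    refine ⟨min (1 / 4) (ε / (16 * (2 * T + 2))), by positivity, min_le_left _ _, ?_⟩
    have h1 : min (1 / 4) (ε / (16 * (2 * T + 2))) ≤ ε / (16 * (2 * T + 2)) := min_le_right _ _
    have h2 : ε / (16 * (2 * T + 2)) * (16 * (2 * T + 2)) = ε := by field_simp
    nlinarith
  obtain ⟨D, h1, h2, h3⟩ := exists_data2 hδ hδ' hT
  refine ⟨D.plane, ?_, ?_, D.net hn (by rw [h3]), D.card_UU (n := n) (by rw [h3]), D.card_BB,
    ?_, ?_⟩
  · intro p v
    have h := D.lam_ge p
    have e : D.plane.inn p v v = D.lam p * (v.1 ^ 2 + v.2 ^ 2) := by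
      simp only [RPlane.inn, Data.plane]; ring
    rw [e]
    nlinarith [sq_nonneg v.1, sq_nonneg v.2]
  · refine lt_of_le_of_lt D.total ?_
    rw [h1, h2]
    exact (ENNReal.ofReal_lt_ofReal_iff hε).mpr hδε
  · intro v hv
    have hv' : v ∈ D.BB n := hv
    rw [D.mem_BB] at hv'
    obtain ⟨k, ⟨hk1, hk2⟩, rfl⟩ := hv'
    obtain ⟨m, rfl⟩ : ∃ m, k = m + 1 := ⟨k - 1, by omega⟩
    have e1 : (Finset.univ.filter fun i : Fin (n + 1) × Bool => D.ed n i 0 = D.P (m + 1)) =
        {(⟨m + 1, by omega⟩, true), (⟨m + 1, by omega⟩, false)} := by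
      ext i; simp [D.start_iff i (m + 1) hk2]
    have e2 : (Finset.univ.filter fun i : Fin (n + 1) × Bool =>
        D.ed n i (Data2.ln n i) = D.P (m + 1)) =
        {(⟨m, by omega⟩, true), (⟨m, by omega⟩, false)} := by
      ext i; simp [D.end_iff (by rw [h3]) i m hk2]
    show (Finset.univ.filter fun i : Fin (n + 1) × Bool => D.ed n i 0 = D.P (m + 1)).card +
      (Finset.univ.filter fun i : Fin (n + 1) × Bool =>
        D.ed n i (Data2.ln n i) = D.P (m + 1)).card = 4
    rw [e1, e2, Finset.card_pair (Data2.pair_ne _), Finset.card_pair (Data2.pair_ne _)]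
  · show Fintype.card (Fin (n + 1) × Bool) = 2 * n + 2
    simp
    ring

end Pool.Agent.Results.MP_34cb49_gt.ManyBalancedVertices
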